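import Mathlib

set_option autoImplicit false
open scoped LinearAlgebra.Projectivization

namespace Pool.Agent.Lib.MP_23142e_ag

open MvPolynomial

lemma sum_eq_of_mem_support {σ : Type*} [Fintype σ] {f : MvPolynomial σ ℂ} {m : ℕ}
    (hf : f.IsHomogeneous m) {d : σ →₀ ℕ} (hd : d ∈ f.support) : ∑ i, d i = m := by
  rw [hf.degree_eq_sum_deg_support hd]
  exact (Finset.sum_subset (Finset.subset_univ _) (fun i _ hi => by simpa using hi)).symm

/-- Homogeneous polynomials scale. -/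
lemma eval_smul_of_isHomogeneous {σ : Type*} [Fintype σ] {f : MvPolynomial σ ℂ} {m : ℕ}
    (hf : f.IsHomogeneous m) (c : ℂ) (x : σ → ℂ) :
    eval (c • x) f = c ^ m * eval x f := by
  rw [eval_eq', eval_eq', Finset.mul_sum]
  refine Finset.sum_congr rfl fun d hd => ?_
  have h1 : m = ∑ i, d i := (sum_eq_of_mem_support hf hd).symm
  have h2 : ∏ i, (c • x) i ^ d i = c ^ m * ∏ i, x i ^ d i := by
    simp only [Pi.smul_apply, smul_eq_mul, mul_pow, Finset.prod_mul_distrib]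
    rw [h1, ← Finset.prod_pow_eq_pow_sum]
  rw [h2]; ring

/-- The affine vector. -/
noncomputable def vec (a b : ℕ) : Fin 3 → ℂ := ![(a : ℂ), (b : ℂ), 1]

lemma vec_ne_zero (a b : ℕ) : vec a b ≠ 0 := by
  intro h
  have := congrFun h 2
  simp [vec] at this

/-- The point `(a : b : 1)`. -/
noncomputable def pt (q : ℕ × ℕ) : ℙ ℂ (Fin 3 → ℂ) :=
  Projectivization.mk ℂ (vec q.1 q.2) (vec_ne_zero _ _)

lemma pt_injective : Function.Injective pt := by
  rintro ⟨a, b⟩ ⟨a', b'⟩ h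
  rw [pt, pt, Projectivization.mk_eq_mk_iff'] at h
  obtain ⟨c, hc⟩ := h
  have h2 := congrFun hc 2
  have h0 := congrFun hc 0
  have h1 := congrFun hc 1
  simp [vec] at h0 h1 h2
  subst h2
  simp at h0 h1
  simp [h0, h1]

lemma eval_rep_eq_zero_iff {f : MvPolynomial (Fin 3) ℂ} {m : ℕ} (hf : f.IsHomogeneous m)
    (q : ℕ × ℕ) : eval (pt q).rep f = 0 ↔ eval (vec q.1 q.2) f = 0 := by
  obtain ⟨a, ha⟩ := Projectivization.exists_smul_eq_mk_rep ℂ (vec q.1 q.2) (vec_ne_zero _ _)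
  have : (pt q).rep = (a : ℂ) • vec q.1 q.2 := by
    rw [pt, ← ha]; rfl
  rw [this, eval_smul_of_isHomogeneous hf]
  simp

/-- The `4 × 4` grid. -/
noncomputable def grid : Finset (ℙ ℂ (Fin 3 → ℂ)) :=
  (Finset.range 4 ×ˢ Finset.range 4).map ⟨pt, pt_injective⟩

lemma card_grid : grid.card = 16 := by
  simp [grid]

lemma mem_grid {a b : ℕ} (ha : a < 4) (hb : b < 4) : pt (a, b) ∈ grid := by
  simp only [grid, Finset.mem_map, Finset.mem_product, Finset.mem_range]
  exact ⟨(a, b), ⟨ha, hb⟩, rfl⟩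

/-- weights of the third finite difference -/
def w : ℕ → ℂ
  | 0 => 1
  | 1 => -3
  | 2 => 3
  | _ => -1

lemma w_ne_zero (a : ℕ) : w a ≠ 0 := by
  rcases a with _ | _ | _ | a <;> simp [w]

lemma sum_w (k : ℕ) (hk : k ≤ 2) : ∑ a ∈ Finset.range 4, w a * (a : ℂ) ^ k = 0 := by
  interval_cases k <;> simp [Finset.sum_range_succ, w] <;> norm_num

lemma sum_ww {f : MvPolynomial (Fin 3) ℂ} (hf : f.IsHomogeneous 5) :
    ∑ q ∈ Finset.range 4 ×ˢ Finset.range 4, w q.1 * w q.2 * eval (vec q.1 q.2) f = 0 := by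
  simp only [eval_eq', Finset.mul_sum]
  rw [Finset.sum_comm]
  refine Finset.sum_eq_zero fun d hd => ?_
  have h5 : d 0 + d 1 + d 2 = 5 := by
    have h := sum_eq_of_mem_support hf hd
    rw [Fin.sum_univ_three] at h
    exact h
  have key : ∑ q ∈ Finset.range 4 ×ˢ Finset.range 4,
      w q.1 * w q.2 * (coeff d f * ∏ i, vec q.1 q.2 i ^ d i) =
      coeff d f * ((∑ a ∈ Finset.range 4, w a * (a : ℂ) ^ d 0) *
        (∑ b ∈ Finset.range 4, w b * (b : ℂ) ^ d 1)) := by
    rw [Finset.sum_mul_sum, ← Finset.sum_product', Finset.mul_sum]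
    refine Finset.sum_congr rfl fun q _ => ?_
    simp [Fin.prod_univ_three, vec]
    ring
  rw [key]
  rcases (by omega : d 0 ≤ 2 ∨ d 1 ≤ 2) with h | h
  · rw [sum_w _ h]; ring
  · rw [sum_w _ h]; ring

/-- The grid satisfies the Cayley-Bacharach condition for quintics. -/
lemma grid_cb (p : ℙ ℂ (Fin 3 → ℂ)) (hp : p ∈ grid) (f : MvPolynomial (Fin 3) ℂ)
    (hf : f.IsHomogeneous 5) (h : ∀ q ∈ grid, q ≠ p → eval q.rep f = 0) :
    eval p.rep f = 0 := by
  simp only [grid, Finset.mem_map, Finset.mem_product, Finset.mem_range,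
    Function.Embedding.coeFn_mk] at hp
  obtain ⟨p0, ⟨hp1, hp2⟩, rfl⟩ := hp
  rw [eval_rep_eq_zero_iff hf]
  have h1 := sum_ww hf
  rw [Finset.sum_eq_single_of_mem p0 (by simp [hp1, hp2])] at h1
  · rcases mul_eq_zero.mp h1 with h2 | h2
    · rcases mul_eq_zero.mp h2 with h3 | h3
      · exact absurd h3 (w_ne_zero _)
      · exact absurd h3 (w_ne_zero _)
    · exact h2
  · intro q hq hne
    have h3 : eval (vec q.1 q.2) f = 0 := by
      rw [← eval_rep_eq_zero_iff hf]
      refine h _ ?_ (fun h => hne (pt_injective h))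
      simp only [Finset.mem_product, Finset.mem_range] at hq
      exact mem_grid hq.1 hq.2
    rw [h3]; ring

end Pool.Agent.Lib.MP_23142e_ag
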