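import Mathlib
import Pool.Agent.Lib.MP_23142e_ag.Basic

set_option autoImplicit false

namespace Pool.Agent.Lib.MP_23142e_ag

open MvPolynomial

abbrev R3 := MvPolynomial (Fin 3) ℂ

lemma ringKrullDim_R3 : ringKrullDim R3 = 3 := by
  rw [MvPolynomial.ringKrullDim_of_isNoetherianRing, ringKrullDim_eq_zero_of_field]
  simp

/-- A prime of dimension two in `ℂ[x,y,z]` is principal. -/
lemma exists_prime_span {P : Ideal R3} (hP : P.IsPrime) (h2 : ringKrullDim (R3 ⧸ P) = 2) :
    ∃ a : R3, a ≠ 0 ∧ P = Ideal.span {a} := by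
  have hne : P ≠ ⊥ := by
    rintro rfl
    have h1 : ringKrullDim (R3 ⧸ (⊥ : Ideal R3)) = ringKrullDim R3 :=
      ringKrullDim_eq_of_ringEquiv (RingEquiv.quotientBot R3)
    rw [h2, ringKrullDim_R3] at h1
    exact absurd h1 (by decide)
  obtain ⟨a, haP, ha⟩ := hP.exists_mem_prime_of_ne_bot hne
  refine ⟨a, ha.ne_zero, ?_⟩
  have hle : Ideal.span {a} ≤ P := (Ideal.span_singleton_le_iff_mem _).mpr haP
  by_contra hneq
  have hlt : ∃ x ∈ P, x ∉ Ideal.span {a} := by
    by_contra hcon
    push Not at hcon
    exact hneq (le_antisymm hcon hle)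
  obtain ⟨x, hxP, hxa⟩ := hlt
  have hprime : (Ideal.span {a}).IsPrime := (Ideal.span_singleton_prime ha.ne_zero).mpr ha
  have h3 : ringKrullDim (R3 ⧸ Ideal.span {a}) + 1 ≤ ringKrullDim R3 :=
    ringKrullDim_quotient_succ_le_of_nonZeroDivisor (mem_nonZeroDivisors_of_ne_zero ha.ne_zero)
  have h4 : ringKrullDim (R3 ⧸ P) + 1 ≤ ringKrullDim (R3 ⧸ Ideal.span {a}) := by
    refine ringKrullDim_succ_le_of_surjective (Ideal.Quotient.factor hle)
      (Ideal.Quotient.factor_surjective hle) (r := Ideal.Quotient.mk _ x) ?_ ?_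
    · refine mem_nonZeroDivisors_of_ne_zero ?_
      rwa [Ne, Ideal.Quotient.eq_zero_iff_mem]
    · rw [Ideal.Quotient.factor_mk, Ideal.Quotient.eq_zero_iff_mem]
      exact hxP
  have h5 : (2 : WithBot ℕ∞) + 1 + 1 ≤ 3 := by
    rw [← h2, ← ringKrullDim_R3]
    exact le_trans (by gcongr) h3
  exact absurd h5 (by decide)

/-- In a UFD, a finite intersection of nonzero principal ideals is nonzero principal. -/
lemma exists_sInf_eq_span {s : Set (Ideal R3)} (hs : s.Finite)
    (h : ∀ P ∈ s, ∃ a : R3, a ≠ 0 ∧ P = Ideal.span {a}) :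
    ∃ F : R3, F ≠ 0 ∧ sInf s = Ideal.span {F} := by
  classical
  let _ : GCDMonoid R3 := UniqueFactorizationMonoid.toGCDMonoid R3
  induction s, hs using Set.Finite.induction_on with
  | empty => exact ⟨1, one_ne_zero, by simp⟩
  | @insert P s _ _ ih =>
    obtain ⟨F, hF, hsF⟩ := ih (fun Q hQ => h Q (Set.mem_insert_of_mem _ hQ))
    obtain ⟨a, ha, hPa⟩ := h P (Set.mem_insert _ _)
    refine ⟨lcm a F, lcm_ne_zero_iff.mpr ⟨ha, hF⟩, ?_⟩
    rw [sInf_insert, hsF, hPa]
    ext x
    simp only [Ideal.mem_inf, Ideal.mem_span_singleton, lcm_dvd_iff]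

lemma eq_span_of_pure {I : Ideal R3} (hrad : I.IsRadical)
    (hpure : ∀ P ∈ I.minimalPrimes, ringKrullDim (R3 ⧸ P) = 2) :
    ∃ F : R3, F ≠ 0 ∧ I = Ideal.span {F} := by
  obtain ⟨F, hF, h⟩ := exists_sInf_eq_span (s := I.minimalPrimes)
    (Ideal.finite_minimalPrimes_of_isNoetherianRing R3 I)
    (fun P hP => exists_prime_span hP.1.1 (hpure P hP))
  refine ⟨F, hF, ?_⟩
  rw [← h, Ideal.sInf_minimalPrimes, hrad.radical]

/-- dimension of the space of forms of degree `t` in three variables -/
lemma finrank_forms (t : ℕ) :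
    Module.finrank ℂ (homogeneousSubmodule (Fin 3) ℂ t) = (t + 2).choose 2 := by
  classical
  rw [homogeneousSubmodule_eq_finsupp_supported]
  rw [LinearEquiv.finrank_eq (AddMonoidAlgebra.supportedEquivFinsupp (R := ℂ) (S := ℂ)
    {d : Fin 3 →₀ ℕ | d.degree = t})]
  have hset : {d : Fin 3 →₀ ℕ | d.degree = t} =
      ((Finset.univ : Finset (Fin 3)).finsuppAntidiag t : Set (Fin 3 →₀ ℕ)) := by
    ext d
    simp [Finset.mem_finsuppAntidiag, Finsupp.degree_eq_sum]
  rw [hset]
  rw [Module.finrank_finsupp_self, ← Nat.card_eq_fintype_card, Nat.card_eq_card_toFinset,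
    Finset.toFinset_coe, Finset.card_finsuppAntidiag_nat_eq_choose]
  simp only [Finset.card_univ, Fintype.card_fin]
  have : 3 + t - 1 = t + 2 := by omega
  rw [this]
  exact Nat.choose_symm_add

/-- If a homogeneous ideal is generated by `F ≠ 0`, then `F` is homogeneous. -/
lemma isHomogeneous_gen {F : R3} (hF : F ≠ 0)
    (h : ∀ f ∈ Ideal.span {F}, ∀ k : ℕ, homogeneousComponent k f ∈ Ideal.span {F}) :
    F.IsHomogeneous F.totalDegree := by
  have key : ∀ k, k ≠ F.totalDegree → homogeneousComponent k F = 0 := by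
    intro k hk
    rcases lt_or_gt_of_ne hk with hlt | hgt
    · by_contra hne
      have h1 := h F (Ideal.mem_span_singleton_self F) k
      rw [Ideal.mem_span_singleton] at h1
      obtain ⟨g, hg⟩ := h1
      have hg0 : g ≠ 0 := by
        rintro rfl
        exact hne (by rw [hg, mul_zero])
      have h2 : (homogeneousComponent k F).totalDegree = F.totalDegree + g.totalDegree := by
        rw [hg, MvPolynomial.totalDegree_mul_of_isDomain hF hg0]
      have h3 : (homogeneousComponent k F).totalDegree = k :=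
        (homogeneousComponent_isHomogeneous k F).totalDegree hne
      omega
    · exact homogeneousComponent_eq_zero _ _ hgt
  have h1 := sum_homogeneousComponent F
  rw [Finset.sum_eq_single_of_mem F.totalDegree (by simp) (fun k _ hk => key k hk)] at h1
  have h2 := homogeneousComponent_isHomogeneous F.totalDegree F
  rwa [h1] at h2

lemma mul_homogeneousComponent {F g : R3} {D t : ℕ} (hF : F.IsHomogeneous D) (ht : D ≤ t)
    (h : (F * g).IsHomogeneous t) : F * homogeneousComponent (t - D) g = F * g := by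
  have h1 : homogeneousComponent t (F * g) = F * g := homogeneousComponent_eq_self h
  have h2 : F * g = ∑ k ∈ Finset.range (g.totalDegree + 1), F * homogeneousComponent k g := by
    rw [← Finset.mul_sum, sum_homogeneousComponent]
  rw [← h1, h2, map_sum]
  have h3 : ∀ k ∈ Finset.range (g.totalDegree + 1),
      homogeneousComponent t (F * homogeneousComponent k g) =
        if k = t - D then F * homogeneousComponent k g else 0 := by
    intro k _
    have h4 : F * homogeneousComponent k g ∈ homogeneousSubmodule (Fin 3) ℂ (D + k) :=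
      hF.mul (homogeneousComponent_isHomogeneous k g)
    rw [homogeneousComponent_of_mem h4]
    have : t = D + k ↔ k = t - D := by omega
    simp only [this]
  rw [Finset.sum_congr rfl h3, Finset.sum_ite_eq']
  split_ifs with h5
  · rfl
  · rw [Finset.mem_range, not_lt] at h5
    rw [homogeneousComponent_eq_zero (t - D) g (by omega), mul_zero]

lemma eval_aeval_polynomial (f : Fin 3 → Polynomial ℂ) (F : R3) (y : ℂ) :
    (aeval f F).eval y = eval (fun i => (f i).eval y) F := by
  have h := MvPolynomial.comp_aeval_apply (φ := Polynomial.aeval y) f F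
  rw [Polynomial.coe_aeval_eq_eval] at h
  rw [h, ← MvPolynomial.coe_aeval_eq_eval]
  rfl

/-- The dimension of the degree `t` part of a principal homogeneous ideal is at most that of
the forms of degree `t - deg F`. -/
lemma finrank_span_le {F : R3} (hhom : F.IsHomogeneous F.totalDegree) (t : ℕ)
    (ht : F.totalDegree ≤ t) :
    Module.finrank ℂ ↥((Ideal.span {F}).restrictScalars ℂ ⊓ homogeneousSubmodule (Fin 3) ℂ t) ≤
      Module.finrank ℂ (homogeneousSubmodule (Fin 3) ℂ (t - F.totalDegree)) := by
  have hle : (Ideal.span {F}).restrictScalars ℂ ⊓ homogeneousSubmodule (Fin 3) ℂ t ≤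
      (homogeneousSubmodule (Fin 3) ℂ (t - F.totalDegree)).map (LinearMap.mulLeft ℂ F) := by
    rintro x ⟨hx1, hx2⟩
    have hx1' : x ∈ Ideal.span {F} := hx1
    have hx2' : x.IsHomogeneous t := hx2
    rw [Ideal.mem_span_singleton] at hx1'
    obtain ⟨g, rfl⟩ := hx1'
    refine ⟨homogeneousComponent (t - F.totalDegree) g, homogeneousComponent_mem _ _, ?_⟩
    rw [LinearMap.mulLeft_apply]
    exact mul_homogeneousComponent hhom ht hx2'
  have : Module.Finite ℂ (homogeneousSubmodule (Fin 3) ℂ (t - F.totalDegree)) :=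
    Module.Finite.iff_fg.mpr (homogeneousSubmodule_fg (Fin 3) ℂ _)
  refine (Submodule.finrank_mono hle).trans ?_
  exact Submodule.finrank_map_le _ _

/-- A form of degree at most three vanishing on the `4 × 4` grid is zero. -/
lemma eq_zero_of_grid {F : R3} {D : ℕ} (hhom : F.IsHomogeneous D) (hD : D ≤ 3)
    (h : ∀ a < 4, ∀ b < 4, eval ![((a : ℕ) : ℂ), ((b : ℕ) : ℂ), 1] F = 0) : F = 0 := by
  have line : ∀ (p : Polynomial ℂ), p.natDegree ≤ 3 → (∀ a < 4, p.eval ((a : ℕ) : ℂ) = 0) →
      p = 0 := by
    intro p hp hpa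
    refine Polynomial.eq_zero_of_natDegree_lt_card_of_eval_eq_zero' p
      ((Finset.range 4).image (fun a : ℕ => (a : ℂ))) ?_ ?_
    · intro x hx
      simp only [Finset.mem_image, Finset.mem_range] at hx
      obtain ⟨a, ha, rfl⟩ := hx
      exact hpa a ha
    · rw [Finset.card_image_of_injective _ Nat.cast_injective]
      simp
      omega
  have hx : ∀ (x : ℂ), ∀ b < 4, eval ![x, ((b : ℕ) : ℂ), 1] F = 0 := by
    intro x b hb
    let p : Polynomial ℂ := aeval ![Polynomial.X, Polynomial.C ((b : ℕ) : ℂ), 1] F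
    have hpe : ∀ y, p.eval y = eval ![y, ((b : ℕ) : ℂ), 1] F := by
      intro y
      rw [eval_aeval_polynomial]
      congr 2
      ext i
      fin_cases i <;> simp
    have hp0 : p = 0 := by
      refine line p ?_ ?_
      · have := MvPolynomial.aeval_natDegree_le F (hhom.totalDegree_le)
          ![Polynomial.X, Polynomial.C ((b : ℕ) : ℂ), 1] (n := 1) (by
            intro i
            fin_cases i <;> simp)
        exact this.trans (by omega)
      · intro a ha
        rw [hpe]
        exact h a ha b hb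
    rw [← hpe, hp0]; simp
  have hxy : ∀ (x y : ℂ), eval ![x, y, 1] F = 0 := by
    intro x y
    let p : Polynomial ℂ := aeval ![Polynomial.C x, Polynomial.X, 1] F
    have hpe : ∀ y, p.eval y = eval ![x, y, 1] F := by
      intro y
      rw [eval_aeval_polynomial]
      congr 2
      ext i
      fin_cases i <;> simp
    have hp0 : p = 0 := by
      refine line p ?_ ?_
      · have := MvPolynomial.aeval_natDegree_le F (hhom.totalDegree_le)
          ![Polynomial.C x, Polynomial.X, 1] (n := 1) (by
            intro i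
            fin_cases i <;> simp)
        exact this.trans (by omega)
      · intro b hb
        rw [hpe]
        exact hx x b hb
    rw [← hpe, hp0]; simp
  have hall : F * X 2 = 0 := by
    refine MvPolynomial.funext fun v => ?_
    rw [map_mul, eval_X, map_zero]
    rcases eq_or_ne (v 2) 0 with h0 | h0
    · rw [h0, mul_zero]
    · have hv : v = v 2 • ![v 0 / v 2, v 1 / v 2, 1] := by
        ext i
        fin_cases i <;> simp <;> field_simp
      rw [hv, eval_smul_of_isHomogeneous hhom, hxy]
      simp
  exact (mul_eq_zero.mp hall).resolve_right (X_ne_zero 2)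

end Pool.Agent.Lib.MP_23142e_ag
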